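import Mathlib

/-!
# Abelian groups with two generators
-/

set_option autoImplicit false

open scoped BigOperators

noncomputable section

namespace Pool.Agent.PP.RK2

/-- commutative groups with two generators -/
def Rk2 : (Q : Type) → [Group Q] → Prop := fun Q _ =>
  (∀ x y : Q, x * y = y * x) ∧ ∃ x y : Q, Subgroup.closure {x, y} = ⊤

/-- subgroups of commutative groups with two generators -/
theorem rk2_sub {Q R : Type} [Group Q] [Group R] (j : Q →* R) (hj : Function.Injective j)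
    (h : Rk2 R) : Rk2 Q := by
  obtain ⟨hc, x, y, hxy⟩ := h
  have hcQ : ∀ a b : Q, a * b = b * a := by
    intro a b
    apply hj
    rw [map_mul, map_mul, hc]
  refine ⟨hcQ, ?_⟩
  have hX : (Subgroup.zpowers x).Normal := by
    refine ⟨fun n hn g => ?_⟩
    rw [hc g n, mul_assoc, mul_inv_cancel, mul_one]
    exact hn
  obtain ⟨π, hπ⟩ : ∃ π : R →* R ⧸ Subgroup.zpowers x, π = QuotientGroup.mk' _ := ⟨_, rfl⟩
  have hk : ∀ r, π r = 1 ↔ r ∈ Subgroup.zpowers x := by
    intro r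
    rw [hπ, QuotientGroup.mk'_apply, QuotientGroup.eq_one_iff]
  -- the quotient is cyclic
  have hcyc : IsCyclic (R ⧸ Subgroup.zpowers x) := by
    refine ⟨⟨π y, fun z => ?_⟩⟩
    obtain ⟨r, rfl⟩ := QuotientGroup.mk'_surjective (Subgroup.zpowers x) z
    rw [← hπ]
    have hr : r ∈ Subgroup.closure ({x, y} : Set R) := by
      rw [hxy]
      exact Subgroup.mem_top r
    refine Subgroup.closure_induction (p := fun r _ => π r ∈ Subgroup.zpowers (π y))
      (fun a ha => ?_) ?_ (fun a b _ _ h1 h2 => ?_) (fun a _ h1 => ?_) hr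
    · rcases ha with rfl | ha
      · rw [(hk a).2 (Subgroup.mem_zpowers a)]
        exact Subgroup.one_mem _
      · have : a = y := ha
        rw [this]
        exact Subgroup.mem_zpowers _
    · rw [map_one]
      exact Subgroup.one_mem _
    · rw [map_mul]
      exact Subgroup.mul_mem _ h1 h2
    · rw [map_inv]
      exact Subgroup.inv_mem _ h1
  obtain ⟨f, hf⟩ : ∃ f : Q →* R ⧸ Subgroup.zpowers x, ∀ q, f q = π (j q) :=
    ⟨π.comp j, fun _ => rfl⟩
  have hker : IsCyclic f.ker := by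
    have h1 : ∀ q : f.ker, j q ∈ Subgroup.zpowers x := by
      intro q
      have h2 : f q = 1 := q.2
      exact (hk _).1 ((hf _).symm.trans h2)
    obtain ⟨g, hg⟩ : ∃ g : f.ker →* Subgroup.zpowers x, ∀ q, (g q : R) = j q :=
      ⟨(j.comp f.ker.subtype).codRestrict _ h1, fun _ => rfl⟩
    refine isCyclic_of_injective g fun a b hab => ?_
    apply Subtype.ext
    apply hj
    rw [← hg, ← hg, hab]
  have hran : IsCyclic f.range := inferInstance
  obtain ⟨k, hkg⟩ := hker.exists_generator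
  obtain ⟨⟨_, q, rfl⟩, hqg⟩ := hran.exists_generator
  refine ⟨(k : Q), q, ?_⟩
  rw [eq_top_iff]
  intro z _
  obtain ⟨n, hn⟩ := Subgroup.mem_zpowers_iff.1 (hqg ⟨f z, z, rfl⟩)
  have hn' : f q ^ n = f z := congrArg Subtype.val hn
  have h3 : z * (q ^ n)⁻¹ ∈ f.ker := by
    rw [MonoidHom.mem_ker, map_mul, map_inv, map_zpow, hn', mul_inv_cancel]
  obtain ⟨m, hm⟩ := Subgroup.mem_zpowers_iff.1 (hkg ⟨z * (q ^ n)⁻¹, h3⟩)
  have hm' : (k : Q) ^ m = z * (q ^ n)⁻¹ := congrArg Subtype.val hm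
  have h4 : z = (k : Q) ^ m * q ^ n := by
    rw [hm', inv_mul_cancel_right]
  rw [h4]
  have hk1 : (k : Q) ∈ Subgroup.closure ({(k : Q), q} : Set Q) :=
    Subgroup.subset_closure (Set.mem_insert _ _)
  have hq1 : q ∈ Subgroup.closure ({(k : Q), q} : Set Q) :=
    Subgroup.subset_closure (Set.mem_insert_of_mem _ rfl)
  exact Subgroup.mul_mem _ (Subgroup.zpow_mem _ hk1 m) (Subgroup.zpow_mem _ hq1 n)

/-- an elementary abelian group with two generators which is not cyclic -/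
theorem card_of {ℓ : ℕ} [Fact ℓ.Prime] {Q : Type} [Group Q] [Finite Q] (hp : IsPGroup ℓ Q)
    (h : Rk2 Q) (hexp : ∀ q : Q, q ^ ℓ = 1) (hcyc : ¬ IsCyclic Q) : Nat.card Q = ℓ ^ 2 := by
  classical
  have hℓ : ℓ.Prime := Fact.out
  obtain ⟨hc, x, y, hxy⟩ := h
  obtain ⟨n, hn⟩ := IsPGroup.iff_card.1 hp
  have hsurj : Function.Surjective (fun w : Fin ℓ × Fin ℓ => x ^ (w.1 : ℕ) * y ^ (w.2 : ℕ)) := by
    intro z
    have hz : z ∈ Subgroup.closure ({x, y} : Set Q) := by
      rw [hxy]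
      exact Subgroup.mem_top z
    have hpw : ∀ (a : Q) (i : ℕ), a ^ i = a ^ (i % ℓ) := by
      intro a i
      conv_lhs => rw [← Nat.mod_add_div i ℓ]
      rw [pow_add, pow_mul, hexp, one_pow, mul_one]
    have key : ∃ i j : ℕ, z = x ^ i * y ^ j := by
      refine Subgroup.closure_induction (p := fun z _ => ∃ i j : ℕ, z = x ^ i * y ^ j)
        (fun a ha => ?_) ?_ (fun a b _ _ h1 h2 => ?_) (fun a _ h1 => ?_) hz
      · rcases ha with rfl | ha
        · exact ⟨1, 0, by rw [pow_one, pow_zero, mul_one]⟩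
        · have : a = y := ha
          exact ⟨0, 1, by rw [pow_one, pow_zero, one_mul, this]⟩
      · exact ⟨0, 0, by rw [pow_zero, pow_zero, mul_one]⟩
      · obtain ⟨i, j, rfl⟩ := h1
        obtain ⟨i', j', rfl⟩ := h2
        refine ⟨i + i', j + j', ?_⟩
        rw [pow_add, pow_add]
        calc x ^ i * y ^ j * (x ^ i' * y ^ j') = x ^ i * (y ^ j * x ^ i') * y ^ j' := by group
          _ = x ^ i * (x ^ i' * y ^ j) * y ^ j' := by rw [hc (y ^ j)]
          _ = _ := by group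
      · obtain ⟨i, j, rfl⟩ := h1
        refine ⟨i * (ℓ - 1), j * (ℓ - 1), ?_⟩
        rw [inv_eq_iff_mul_eq_one]
        have e1 : x ^ i * x ^ (i * (ℓ - 1)) = 1 := by
          rw [← pow_add]
          have : i + i * (ℓ - 1) = ℓ * i := by
            have := hℓ.pos
            obtain ⟨k, rfl⟩ : ∃ k, ℓ = k + 1 := ⟨ℓ - 1, by omega⟩
            rw [Nat.add_sub_cancel]
            ring
          rw [this, pow_mul, hexp, one_pow]
        have e2 : y ^ j * y ^ (j * (ℓ - 1)) = 1 := by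
          rw [← pow_add]
          have : j + j * (ℓ - 1) = ℓ * j := by
            have := hℓ.pos
            obtain ⟨k, rfl⟩ : ∃ k, ℓ = k + 1 := ⟨ℓ - 1, by omega⟩
            rw [Nat.add_sub_cancel]
            ring
          rw [this, pow_mul, hexp, one_pow]
        calc x ^ i * y ^ j * (x ^ (i * (ℓ - 1)) * y ^ (j * (ℓ - 1))) =
            x ^ i * (y ^ j * x ^ (i * (ℓ - 1))) * y ^ (j * (ℓ - 1)) := by group
          _ = x ^ i * (x ^ (i * (ℓ - 1)) * y ^ j) * y ^ (j * (ℓ - 1)) := by rw [hc (y ^ j)]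
          _ = (x ^ i * x ^ (i * (ℓ - 1))) * (y ^ j * y ^ (j * (ℓ - 1))) := by group
          _ = 1 := by rw [e1, e2, one_mul]
    obtain ⟨i, j, hij⟩ := key
    refine ⟨(⟨i % ℓ, Nat.mod_lt _ hℓ.pos⟩, ⟨j % ℓ, Nat.mod_lt _ hℓ.pos⟩), ?_⟩
    show x ^ (i % ℓ) * y ^ (j % ℓ) = z
    rw [← hpw, ← hpw, hij]
  have hle : Nat.card Q ≤ ℓ ^ 2 := by
    have h1 := Nat.card_le_card_of_surjective _ hsurj
    rwa [Nat.card_prod, Nat.card_fin, ← pow_two] at h1
  rw [hn] at hle
  have hn2 : n ≤ 2 := (Nat.pow_le_pow_iff_right hℓ.one_lt).1 hle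
  have h0 : n ≠ 0 := by
    rintro rfl
    rw [pow_zero] at hn
    have := (Nat.card_eq_one_iff_unique.1 hn).1
    exact hcyc isCyclic_of_subsingleton
  have h1 : n ≠ 1 := by
    rintro rfl
    rw [pow_one] at hn
    exact hcyc (isCyclic_of_prime_card hn)
  have : n = 2 := by omega
  rw [hn, this]

end Pool.Agent.PP.RK2
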